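import Pool.Agent.R510.MOL.Smooth

/-! Convergence of the mollified distribution functions (for piece MOL). -/

set_option autoImplicit false

open MeasureTheory Set Filter Topology ProbabilityTheory
open scoped ENNReal

namespace Pool.Agent.R510.MOL

open Pool.Agent.R508.BT

variable {T : ℝ} {mu : ℝ → Measure ℝ} {v : ℝ → ℝ → ℝ} {M : Measure (ℝ × ℝ)}

theorem avg (h : Adm T mu v) (g : Good T mu v M) {r : ℝ} {ρ : ℝ → ℝ}
    (hρ : Continuous ρ) (hρc : HasCompactSupport ρ) (hρ0 : ∀ u, 0 ≤ ρ u)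
    (hρs : ∀ u, r ≤ |u| → ρ u = 0) (hρ1 : ∫ u, ρ u = 1) {hh : ℝ} {s : ℝ}
    (hs1 : r < s) (hs2 : s < T - r) (x lo hi : ℝ)
    (H : ∀ τ ∈ Ioo 0 T, |s - τ| < r → lo ≤ ∫ y, Sg hh (x - y) ∂(mu τ) ∧
      ∫ y, Sg hh (x - y) ∂(mu τ) ≤ hi) :
    lo ≤ I M ρ (Sg hh) (s, x) ∧ I M ρ (Sg hh) (s, x) ≤ hi := by
  have := g.fin
  have hb : BD 0 ρ := ⟨hρ, by simpa using hρ.bounded_above_of_compact_support hρc⟩
  have hi1 : Integrable (fun z : ℝ × ℝ => ρ (s - z.1) * Sg hh (x - z.2)) M :=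
    integrable_kernel hb ⟨continuous_Sg hh, 1, Sg_abs_le hh⟩ (s, x)
  have hi2 : Integrable (fun z : ℝ × ℝ => ρ (s - z.1)) M := by
    have := integrable_kernel (M := M) (q := fun _ => (1 : ℝ)) hb
      ⟨continuous_const, 1, by simp⟩ (s, x)
    simpa using this
  obtain ⟨j1, j2⟩ := g.int _ hi1
  obtain ⟨k1, k2⟩ := g.int _ hi2
  simp only [integral_const_mul] at j1 j2
  have k3 : ∀ t ∈ Ioo 0 T, ∫ _x, ρ (s - t) ∂(mu t) = ρ (s - t) := by
    intro t ht
    have := h.prob t (Ioo_subset_Icc_self ht)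
    simp
  have k1' : IntegrableOn (fun t => ρ (s - t)) (Ioo 0 T) :=
    (integrableOn_congr_fun k3 measurableSet_Ioo).1 k1
  have k4 : ∫ t in Ioo 0 T, ρ (s - t) = 1 := by
    rw [← setIntegral_congr_fun measurableSet_Ioo k3, ← k2]
    exact mass' h g hρ hρc hρ0 hρs hρ1 hs1 hs2
  have e : I M ρ (Sg hh) (s, x) = ∫ t in Ioo 0 T, ρ (s - t) * ∫ y, Sg hh (x - y) ∂(mu t) := j2
  have hc : ∀ c : ℝ, ∫ t in Ioo 0 T, ρ (s - t) * c = c := by
    intro c
    rw [integral_mul_const, k4, one_mul]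
  constructor
  · rw [e, ← hc lo]
    refine setIntegral_mono_on (k1'.mul_const lo) j1 measurableSet_Ioo fun t ht => ?_
    by_cases hr : |s - t| < r
    · exact mul_le_mul_of_nonneg_left (H t ht hr).1 (hρ0 _)
    · rw [hρs _ (not_lt.1 hr)]; simp
  · rw [e, ← hc hi]
    refine setIntegral_mono_on j1 (k1'.mul_const hi) measurableSet_Ioo fun t ht => ?_
    by_cases hr : |s - t| < r
    · exact mul_le_mul_of_nonneg_left (H t ht hr).2 (hρ0 _)
    · rw [hρs _ (not_lt.1 hr)]; simp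

theorem cdf_cont (ν : Measure ℝ) [IsProbabilityMeasure ν] {x : ℝ} (hx : ν {x} = 0) :
    ContinuousAt (fun y => (ν (Iic y)).toReal) x := by
  have e : (fun y => (ν (Iic y)).toReal) = cdf ν := by
    funext y
    rw [cdf_eq_real]
    rfl
  rw [e, (cdf ν).mono.continuousAt_iff_leftLim_eq_rightLim, (cdf ν).rightLim_eq]
  have h1 := (cdf ν).measure_singleton x
  rw [measure_cdf, hx] at h1
  have h2 := ENNReal.ofReal_eq_zero.1 h1.symm
  exact le_antisymm ((cdf ν).mono.leftLim_le le_rfl) (by linarith)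

/-- a ramp -/
noncomputable def ramp (x δ k y : ℝ) : ℝ := max 0 (min 1 (k - (y - x) / δ))

theorem ramp_cont (x δ k : ℝ) : Continuous (ramp x δ k) := by
  unfold ramp; fun_prop

theorem ramp_nonneg (x δ k y : ℝ) : 0 ≤ ramp x δ k y := le_max_left _ _

theorem ramp_le_one (x δ k y : ℝ) : ramp x δ k y ≤ 1 :=
  max_le zero_le_one (min_le_left _ _)

theorem ramp_one {x δ k y : ℝ} (hδ : 0 < δ) (h : y ≤ x + (k - 1) * δ) : ramp x δ k y = 1 := by
  have h1 : (y - x) / δ ≤ k - 1 := by rw [div_le_iff₀ hδ]; linarith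
  unfold ramp
  rw [min_eq_left (by linarith), max_eq_right zero_le_one]

theorem ramp_zero {x δ k y : ℝ} (hδ : 0 < δ) (h : x + k * δ ≤ y) : ramp x δ k y = 0 := by
  have h1 : k ≤ (y - x) / δ := by rw [le_div_iff₀ hδ]; linarith
  unfold ramp
  rw [max_eq_left]
  exact (min_le_right _ _).trans (by linarith)

/-- the ramp as a bounded continuous function -/
noncomputable def rampB (x δ k : ℝ) : BoundedContinuousFunction ℝ ℝ :=
  BoundedContinuousFunction.ofNormedAddCommGroup (ramp x δ k) (ramp_cont x δ k) 1 fun y => by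
    rw [Real.norm_eq_abs, abs_of_nonneg (ramp_nonneg _ _ _ _)]
    exact ramp_le_one _ _ _ _

theorem ramp_int (ν : Measure ℝ) [IsProbabilityMeasure ν] (x δ k : ℝ) :
    Integrable (ramp x δ k) ν :=
  Integrable.of_bound (ramp_cont x δ k).aestronglyMeasurable 1 (Eventually.of_forall fun y => by
    rw [Real.norm_eq_abs, abs_of_nonneg (ramp_nonneg _ _ _ _)]
    exact ramp_le_one _ _ _ _)

theorem Sg_int (ν : Measure ℝ) [IsProbabilityMeasure ν] (hh x : ℝ) :
    Integrable (fun y => Sg hh (x - y)) ν :=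
  Integrable.of_bound ((continuous_Sg hh).comp (continuous_const.sub
    continuous_id)).aestronglyMeasurable 1 (Eventually.of_forall fun y => Sg_abs_le _ _)

theorem Sg_mono {hh : ℝ} (hp : 0 < hh) {a b : ℝ} (hab : a ≤ b) : Sg hh a ≤ Sg hh b := by
  unfold Sg
  exact Real.sigmoid_le (by gcongr)

theorem Sg_le_ramp {hh : ℝ} (hp : 0 < hh) {δ : ℝ} (hδ : 0 < δ) (x y : ℝ) :
    Sg hh (x - y) ≤ ramp x δ 2 y + Sg hh (-δ) := by
  have h0 : 0 ≤ Sg hh (-δ) := (Real.sigmoid_pos _).le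
  rcases le_total y (x + δ) with h | h
  · rw [ramp_one hδ (by linarith)]
    have := Sg_abs_le hh (x - y)
    rw [abs_le] at this
    linarith [this.2]
  · have := Sg_mono hp (show x - y ≤ -δ by linarith)
    linarith [ramp_nonneg x δ 2 y]

theorem ramp_le_Sg {hh : ℝ} (hp : 0 < hh) {δ : ℝ} (hδ : 0 < δ) (x y : ℝ) :
    ramp x δ (-1) y - Sg hh (-δ) ≤ Sg hh (x - y) := by
  have h0 : 0 ≤ Sg hh (x - y) := (Real.sigmoid_pos _).le
  have h1 : 0 ≤ Sg hh (-δ) := (Real.sigmoid_pos _).le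
  rcases le_total y (x - δ) with h | h
  · have h2 := Sg_mono hp (show δ ≤ x - y by linarith)
    have h3 : Sg hh (-δ) = 1 - Sg hh δ := by
      unfold Sg
      rw [neg_div, Real.sigmoid_neg]
    linarith [ramp_le_one x δ (-1) y]
  · rw [ramp_zero hδ (by linarith)]
    linarith

theorem ramp_le_cdf (ν : Measure ℝ) [IsProbabilityMeasure ν] {x δ : ℝ} (hδ : 0 < δ) :
    ∫ y, ramp x δ 2 y ∂ν ≤ (ν (Iic (x + 2 * δ))).toReal := by
  have e : (ν (Iic (x + 2 * δ))).toReal = ∫ y, (Iic (x + 2 * δ)).indicator (fun _ => (1:ℝ)) y ∂ν := by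
    rw [integral_indicator measurableSet_Iic]
    simp [Measure.real]
  rw [e]
  refine integral_mono (ramp_int ν x δ 2) ((integrable_const (1:ℝ)).indicator measurableSet_Iic)
    fun y => ?_
  by_cases hy : y ∈ Iic (x + 2 * δ)
  · rw [indicator_of_mem hy]; exact ramp_le_one _ _ _ _
  · rw [indicator_of_notMem hy, ramp_zero hδ (le_of_lt (not_le.1 hy))]

theorem cdf_le_ramp (ν : Measure ℝ) [IsProbabilityMeasure ν] {x δ : ℝ} (hδ : 0 < δ) :
    (ν (Iic (x - 2 * δ))).toReal ≤ ∫ y, ramp x δ (-1) y ∂ν := by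
  have e : (ν (Iic (x - 2 * δ))).toReal = ∫ y, (Iic (x - 2 * δ)).indicator (fun _ => (1:ℝ)) y ∂ν := by
    rw [integral_indicator measurableSet_Iic]
    simp [Measure.real]
  rw [e]
  refine integral_mono ((integrable_const (1:ℝ)).indicator measurableSet_Iic) (ramp_int ν x δ (-1))
    fun y => ?_
  by_cases hy : y ∈ Iic (x - 2 * δ)
  · rw [indicator_of_mem hy, ramp_one hδ]
    have : y ≤ x - 2 * δ := hy
    linarith
  · rw [indicator_of_notMem hy]; exact ramp_nonneg _ _ _ _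

theorem conv (h : Adm T mu v) (g : Good T mu v M) {r : ℕ → ℝ} {ρ : ℕ → ℝ → ℝ} {s : ℕ → ℝ}
    (hr' : ∀ n : ℕ, 7 * r n ≤ 1 / ((n : ℝ) + 1))
    (hρ : ∀ n, Continuous (ρ n)) (hρc : ∀ n, HasCompactSupport (ρ n)) (hρ0 : ∀ n u, 0 ≤ ρ n u)
    (hρs : ∀ n u, r n ≤ |u| → ρ n u = 0) (hρ1 : ∀ n, ∫ u, ρ n u = 1)
    (hs1 : ∀ n, r n < s n) (hs2 : ∀ n, s n < T - r n) {t : ℝ} (ht : t ∈ Icc 0 T)
    (hst : ∀ n, |s n - t| ≤ 6 * r n) {x : ℝ} (hx : mu t {x} = 0) :
    Tendsto (fun n : ℕ => I M (ρ n) (Sg (1 / ((n : ℝ) + 1))) (s n, x)) atTop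
      (𝓝 ((mu t (Iic x)).toReal)) := by
  have hpt := h.prob t ht
  rw [Metric.tendsto_atTop]
  intro ε' hε'
  set ε := ε' / 4 with hε
  have hε0 : 0 < ε := by positivity
  set m := (mu t (Iic x)).toReal with hm
  have hcc := cdf_cont (mu t) hx
  rw [Metric.continuousAt_iff] at hcc
  obtain ⟨d, hd, hcc⟩ := hcc ε hε0
  set δ := d / 4 with hδd
  have hδ : 0 < δ := by positivity
  have c1 := hcc (x := x + 2 * δ) (by
    rw [Real.dist_eq, add_sub_cancel_left, abs_of_pos (by positivity)]; linarith)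
  have c2 := hcc (x := x - 2 * δ) (by
    rw [Real.dist_eq, sub_sub_cancel_left, abs_neg, abs_of_pos (by positivity)]; linarith)
  rw [Real.dist_eq, abs_lt] at c1 c2
  -- continuity in time
  have t1 := Metric.continuousOn_iff.1 (h.cont (rampB x δ 2)) t ht ε hε0
  have t2 := Metric.continuousOn_iff.1 (h.cont (rampB x δ (-1))) t ht ε hε0
  obtain ⟨γ1, hγ1, t1⟩ := t1
  obtain ⟨γ2, hγ2, t2⟩ := t2
  have hEn : Tendsto (fun n : ℕ => Sg (1 / ((n : ℝ) + 1)) (-δ)) atTop (𝓝 0) := by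
    have h1 : Tendsto (fun n : ℕ => -δ / (1 / ((n : ℝ) + 1))) atTop atBot := by
      have : ∀ n : ℕ, -δ / (1 / ((n : ℝ) + 1)) = -δ * ((n : ℝ) + 1) := by
        intro n; rw [div_div_eq_mul_div, div_one]
      simp only [this]
      exact (tendsto_atTop_add_const_right _ 1 tendsto_natCast_atTop_atTop).const_mul_atTop_of_neg
        (by linarith)
    exact Real.tendsto_sigmoid_atBot.comp h1
  obtain ⟨n1, hn1⟩ := (Metric.tendsto_atTop.1 hEn) ε hε0
  obtain ⟨n2, hn2⟩ := (Metric.tendsto_atTop.1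
    (tendsto_one_div_add_atTop_nhds_zero_nat (𝕜 := ℝ))) (min γ1 γ2) (lt_min hγ1 hγ2)
  refine ⟨max n1 n2, fun n hn => ?_⟩
  have e1 := hn1 n (le_of_max_le_left hn)
  have e2 := hn2 n (le_of_max_le_right hn)
  rw [Real.dist_eq, sub_zero, abs_lt] at e1
  rw [Real.dist_eq, sub_zero, abs_of_pos (by positivity)] at e2
  have hpn : (0 : ℝ) < 1 / ((n : ℝ) + 1) := by positivity
  have key := avg h g (hρ n) (hρc n) (hρ0 n) (hρs n) (hρ1 n) (hh := 1 / ((n : ℝ) + 1)) (hs1 n)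
    (hs2 n) x (m - 3 * ε) (m + 3 * ε) (fun τ hτ hsτ => by
      have hpτ := h.prob τ (Ioo_subset_Icc_self hτ)
      have hdist : dist τ t < min γ1 γ2 := by
        rw [Real.dist_eq]
        have a1 := hst n
        have a2 := hr' n
        rw [abs_le] at a1
        rw [abs_lt] at hsτ
        refine lt_of_lt_of_le ?_ e2.le
        rw [abs_lt]
        constructor <;> linarith [a1.1, a1.2, hsτ.1, hsτ.2]
      have b1 := t1 τ (Ioo_subset_Icc_self hτ) (hdist.trans_le (min_le_left _ _))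
      have b2 := t2 τ (Ioo_subset_Icc_self hτ) (hdist.trans_le (min_le_right _ _))
      have b1' : |∫ y, ramp x δ 2 y ∂(mu τ) - ∫ y, ramp x δ 2 y ∂(mu t)| < ε := b1
      have b2' : |∫ y, ramp x δ (-1) y ∂(mu τ) - ∫ y, ramp x δ (-1) y ∂(mu t)| < ε := b2
      rw [abs_lt] at b1' b2'
      have u1 := ramp_le_cdf (mu t) (x := x) hδ
      have u2 := cdf_le_ramp (mu t) (x := x) hδ
      have u3 : ∫ y, Sg (1 / ((n : ℝ) + 1)) (x - y) ∂(mu τ) ≤
          ∫ y, ramp x δ 2 y ∂(mu τ) + Sg (1 / ((n : ℝ) + 1)) (-δ) := by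
        have : ∫ y, (ramp x δ 2 y + Sg (1 / ((n : ℝ) + 1)) (-δ)) ∂(mu τ) =
            ∫ y, ramp x δ 2 y ∂(mu τ) + Sg (1 / ((n : ℝ) + 1)) (-δ) := by
          rw [integral_add (ramp_int _ _ _ _) (integrable_const _)]
          simp
        rw [← this]
        exact integral_mono (Sg_int _ _ _) ((ramp_int _ _ _ _).add (integrable_const _))
          fun y => Sg_le_ramp hpn hδ x y
      have u4 : ∫ y, ramp x δ (-1) y ∂(mu τ) - Sg (1 / ((n : ℝ) + 1)) (-δ) ≤
          ∫ y, Sg (1 / ((n : ℝ) + 1)) (x - y) ∂(mu τ) := by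
        have : ∫ y, (ramp x δ (-1) y - Sg (1 / ((n : ℝ) + 1)) (-δ)) ∂(mu τ) =
            ∫ y, ramp x δ (-1) y ∂(mu τ) - Sg (1 / ((n : ℝ) + 1)) (-δ) := by
          rw [integral_sub (ramp_int _ _ _ _) (integrable_const _)]
          simp
        rw [← this]
        exact integral_mono ((ramp_int _ _ _ _).sub (integrable_const _)) (Sg_int _ _ _)
          fun y => ramp_le_Sg hpn hδ x y
      constructor <;> linarith [b1'.1, b1'.2, b2'.1, b2'.2, c1.1, c1.2, c2.1, c2.2, e1.1, e1.2])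
  rw [Real.dist_eq, abs_lt]
  constructor <;> linarith [key.1, key.2]

end Pool.Agent.R510.MOL
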