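import Pool.Agent.R510.MOL.Meas

/-! The mollified distribution functions are smooth (for piece MOL). -/

set_option autoImplicit false

open MeasureTheory Set Filter Topology
open scoped ENNReal

namespace Pool.Agent.R510.MOL

open Pool.Agent.R508.BT

section
variable {M : Measure (ℝ × ℝ)} [IsFiniteMeasure M]

theorem BD.zero {n : ℕ} {p : ℝ → ℝ} (h : BD n p) : BD 0 p := ⟨h.cont, h.bdd⟩

theorem hasDerivAt_I_snd {p p' q q' : ℝ → ℝ} (bp : BD 0 p) (hp : ∀ x, HasDerivAt p (p' x) x)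
    (hp' : BD 0 p') (bq : BD 0 q) (hq : ∀ x, HasDerivAt q (q' x) x) (hq' : BD 0 q') (s x : ℝ) :
    HasDerivAt (fun x => I M p q (s, x)) (I M p q' (s, x)) x := by
  have h1 := hasFDerivAt_I (M := M) hp hq bp.2 bq.2 hp' hq' (s, x)
  have h2 : HasDerivAt (fun x : ℝ => ((s, x) : ℝ × ℝ)) (0, 1) x :=
    (hasDerivAt_const x s).prodMk (hasDerivAt_id x)
  have h3 := h1.comp_hasDerivAt x h2
  refine h3.congr_deriv ?_
  simp

theorem hasDerivAt_I_fst {p p' q q' : ℝ → ℝ} (bp : BD 0 p) (hp : ∀ x, HasDerivAt p (p' x) x)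
    (hp' : BD 0 p') (bq : BD 0 q) (hq : ∀ x, HasDerivAt q (q' x) x) (hq' : BD 0 q')
    {θ : ℝ → ℝ} {t c : ℝ} (hθ : HasDerivAt θ c t) (x : ℝ) :
    HasDerivAt (fun t => I M p q (θ t, x)) (c * I M p' q (θ t, x)) t := by
  have h1 := hasFDerivAt_I (M := M) hp hq bp.2 bq.2 hp' hq' (θ t, x)
  have h2 : HasDerivAt (fun t : ℝ => ((θ t, x) : ℝ × ℝ)) (c, 0) t :=
    hθ.prodMk (hasDerivAt_const t x)
  have h3 := h1.comp_hasDerivAt t h2
  refine h3.congr_deriv ?_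
  simp [mul_comm]

end

variable {T : ℝ} {mu : ℝ → Measure ℝ} {v : ℝ → ℝ → ℝ} {M : Measure (ℝ × ℝ)}

theorem mass (h : Adm T mu v) (g : Good T mu v M) {r : ℝ} {ρ : ℝ → ℝ}
    (hρ : Continuous ρ) (hρc : HasCompactSupport ρ) (hρ0 : ∀ u, 0 ≤ ρ u)
    (hρs : ∀ u, r ≤ |u| → ρ u = 0) (hρ1 : ∫ u, ρ u = 1) {s : ℝ} (hs1 : r < s)
    (hs2 : s < T - r) : ∫⁻ z, ENNReal.ofReal (ρ (s - z.1)) ∂M = 1 := by
  rw [g.lint _ (by fun_prop)]
  have e : ∫⁻ t in Ioo 0 T, ∫⁻ _x, ENNReal.ofReal (ρ (s - t)) ∂(mu t) =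
      ∫⁻ t in Ioo 0 T, ENNReal.ofReal (ρ (s - t)) :=
    setLIntegral_congr_fun measurableSet_Ioo fun t ht => by
      have := h.prob t (Ioo_subset_Icc_self ht)
      simp
  simp only
  rw [e, ← lintegral_indicator measurableSet_Ioo]
  have e2 : (Ioo 0 T).indicator (fun t => ENNReal.ofReal (ρ (s - t))) =
      fun t => ENNReal.ofReal (ρ (s - t)) := by
    funext t
    by_cases ht : t ∈ Ioo 0 T
    · rw [indicator_of_mem ht]
    · rw [indicator_of_notMem ht, hρs, ENNReal.ofReal_zero]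
      by_contra hlt
      push Not at hlt
      apply ht
      rw [abs_lt] at hlt
      constructor <;> linarith [hlt.1, hlt.2]
  rw [e2, lintegral_sub_left_eq_self (fun u => ENNReal.ofReal (ρ u)) s,
    ← ofReal_integral_eq_lintegral_ofReal (hρ.integrable_of_hasCompactSupport hρc)
      (Eventually.of_forall hρ0), hρ1, ENNReal.ofReal_one]

theorem mass' (h : Adm T mu v) (g : Good T mu v M) {r : ℝ} {ρ : ℝ → ℝ}
    (hρ : Continuous ρ) (hρc : HasCompactSupport ρ) (hρ0 : ∀ u, 0 ≤ ρ u)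
    (hρs : ∀ u, r ≤ |u| → ρ u = 0) (hρ1 : ∫ u, ρ u = 1) {s : ℝ} (hs1 : r < s)
    (hs2 : s < T - r) : ∫ z, ρ (s - z.1) ∂M = 1 := by
  rw [integral_eq_lintegral_of_nonneg_ae (Eventually.of_forall fun z => hρ0 _)
    (by fun_prop), mass h g hρ hρc hρ0 hρs hρ1 hs1 hs2, ENNReal.toReal_one]

theorem pos_I (h : Adm T mu v) (g : Good T mu v M) {r : ℝ} {ρ : ℝ → ℝ}
    (hρ : Continuous ρ) (hρc : HasCompactSupport ρ) (hρ0 : ∀ u, 0 ≤ ρ u)
    (hρs : ∀ u, r ≤ |u| → ρ u = 0) (hρ1 : ∫ u, ρ u = 1) {hh : ℝ} (hhp : 0 < hh) {s : ℝ}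
    (hs1 : r < s) (hs2 : s < T - r) (x : ℝ) : 0 < I M ρ (sg hh) (s, x) := by
  have := g.fin
  have hb : BD 0 ρ := ⟨hρ, by simpa using hρ.bounded_above_of_compact_support hρc⟩
  have hi : Integrable (fun z : ℝ × ℝ => ρ (s - z.1) * sg hh (x - z.2)) M :=
    integrable_kernel hb ⟨continuous_sg hh, _, sg_abs_le hhp⟩ (s, x)
  have h0 : ∀ z : ℝ × ℝ, 0 ≤ ρ (s - z.1) * sg hh (x - z.2) := fun z =>
    mul_nonneg (hρ0 _) (sg_pos hhp _).le
  refine lt_of_le_of_ne (integral_nonneg h0) fun he => ?_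
  have h1 := (integral_eq_zero_iff_of_nonneg h0 hi).1 he.symm
  have h2 : (fun z : ℝ × ℝ => ENNReal.ofReal (ρ (s - z.1))) =ᵐ[M] 0 := by
    filter_upwards [h1] with z hz
    have : ρ (s - z.1) = 0 := by
      rcases mul_eq_zero.1 hz with h | h
      · exact h
      · exact absurd h (sg_pos hhp _).ne'
    simp [this]
  have h3 := mass h g hρ hρc hρ0 hρs hρ1 hs1 hs2
  rw [lintegral_congr_ae h2] at h3
  simp at h3

theorem smoothCdf (h : Adm T mu v) (g : Good T mu v M) {r : ℝ} (hr : 0 < r) {ρ θ : ℝ → ℝ}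
    (hρ : ContDiff ℝ (↑(⊤ : ℕ∞)) ρ) (hρc : HasCompactSupport ρ) (hρ0 : ∀ u, 0 ≤ ρ u)
    (hρs : ∀ u, r ≤ |u| → ρ u = 0) (hρ1 : ∫ u, ρ u = 1) {hh : ℝ} (hhp : 0 < hh)
    (hθ : ContDiff ℝ 2 θ) (hθ1 : ∀ t, 2 * r ≤ θ t) (hθ2 : ∀ t, θ t ≤ T - 2 * r) :
    SmoothCdf (fun t x => I M ρ (Sg hh) (θ t, x)) := by
  have := g.fin
  have bρ : BD 2 ρ := BD_of_compact 2 hρ hρc
  have bS : BD 2 (Sg hh) := BD_Sg hhp
  have bs : BD 0 (sg hh) := ⟨continuous_sg hh, _, sg_abs_le hhp⟩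
  have hρ' : ContDiff ℝ (↑(⊤ : ℕ∞)) (deriv ρ) := (contDiff_infty_iff_deriv.1 hρ).2
  have bρ' : BD 0 (deriv ρ) := BD_of_compact 0 hρ' hρc.deriv
  have hρd : ∀ u, HasDerivAt ρ (deriv ρ u) u := fun u =>
    (hρ.differentiable (by simp)).differentiableAt.hasDerivAt
  obtain ⟨C, hC⟩ := bρ.bdd
  have hs1 : ∀ t, r < θ t := fun t => by linarith [hθ1 t]
  have hs2 : ∀ t, θ t < T - r := fun t => by linarith [hθ2 t]
  have cρ := hρ.continuous
  have cS := continuous_Sg hh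
  refine ⟨?_, fun t x => ?_, fun t => ?_, fun t => ?_⟩
  · have h1 : ContDiff ℝ 2 (I M ρ (Sg hh)) := by exact_mod_cast contDiff_I 2 bρ bS
    exact h1.comp ((hθ.comp contDiff_fst).prodMk contDiff_snd)
  · rw [(hasDerivAt_I_snd bρ.zero hρd bρ' bS.zero (hasDerivAt_Sg hh) bs (θ t) x).deriv]
    exact pos_I h g cρ hρc hρ0 hρs hρ1 hhp (hs1 t) (hs2 t) x
  · have := tendsto_integral_filter_of_dominated_convergence (μ := M) (l := atBot)
      (F := fun (x : ℝ) (z : ℝ × ℝ) => ρ (θ t - z.1) * Sg hh (x - z.2)) (f := fun _ => 0)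
      (fun _ => C * 1)
      (Eventually.of_forall fun x => (cont_kernel cρ cS (θ t, x)).aestronglyMeasurable)
      (Eventually.of_forall fun x => Eventually.of_forall fun z =>
        bound_kernel hC (Sg_abs_le hh) (θ t, x) z) (integrable_const _)
      (Eventually.of_forall fun z => by
        have : Tendsto (fun x => Sg hh (x - z.2)) atBot (𝓝 0) :=
          (tendsto_Sg_atBot hhp).comp (tendsto_atBot_add_const_right _ (-z.2) tendsto_id)
        simpa using this.const_mul (ρ (θ t - z.1)))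
    rw [integral_zero] at this
    exact this
  · have h1 := tendsto_integral_filter_of_dominated_convergence (μ := M) (l := atTop)
      (F := fun (x : ℝ) (z : ℝ × ℝ) => ρ (θ t - z.1) * Sg hh (x - z.2))
      (f := fun z => ρ (θ t - z.1))
      (fun _ => C * 1)
      (Eventually.of_forall fun x => (cont_kernel cρ cS (θ t, x)).aestronglyMeasurable)
      (Eventually.of_forall fun x => Eventually.of_forall fun z =>
        bound_kernel hC (Sg_abs_le hh) (θ t, x) z) (integrable_const _)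
      (Eventually.of_forall fun z => by
        have : Tendsto (fun x => Sg hh (x - z.2)) atTop (𝓝 1) :=
          (tendsto_Sg_atTop hhp).comp (tendsto_atTop_add_const_right _ (-z.2) tendsto_id)
        simpa using this.const_mul (ρ (θ t - z.1)))
    rw [mass' h g cρ hρc hρ0 hρs hρ1 (hs1 t) (hs2 t)] at h1
    exact h1

end Pool.Agent.R510.MOL
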