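import Pool.Agent.R510.MOL.Core
import Pool.Agent.R510.MOL.Smooth

/-! The action of the mollified distribution functions (for piece MOL). -/

set_option autoImplicit false

open MeasureTheory Set Filter Topology
open scoped ENNReal

namespace Pool.Agent.R510.MOL

open Pool.Agent.R508.BT

variable {T : ℝ} {mu : ℝ → Measure ℝ} {v : ℝ → ℝ → ℝ} {M : Measure (ℝ × ℝ)}

theorem cs {w u : ℝ × ℝ → ℝ} (hw : ∀ z, 0 ≤ w z) (i0 : Integrable w M)
    (i1 : Integrable (fun z => w z * u z) M) (i2 : Integrable (fun z => w z * u z ^ 2) M)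
    (hA : 0 < ∫ z, w z ∂M) :
    (∫ z, w z * u z ∂M) ^ 2 / (∫ z, w z ∂M) ≤ ∫ z, w z * u z ^ 2 ∂M := by
  set A := ∫ z, w z ∂M with hAd
  set B := ∫ z, w z * u z ∂M with hB
  set c := ∫ z, w z * u z ^ 2 ∂M with hc
  have h1 : 0 ≤ ∫ z, w z * (u z - B / A) ^ 2 ∂M :=
    integral_nonneg fun z => mul_nonneg (hw z) (sq_nonneg _)
  have h2 : ∫ z, w z * (u z - B / A) ^ 2 ∂M = c - 2 * (B / A) * B + (B / A) ^ 2 * A := by
    have e : (fun z => w z * (u z - B / A) ^ 2) = fun z =>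
        (w z * u z ^ 2 - 2 * (B / A) * (w z * u z)) + (B / A) ^ 2 * w z := by
      funext z; ring
    have j1 : Integrable (fun z => 2 * (B / A) * (w z * u z)) M := i1.const_mul _
    have j2 : Integrable (fun z => (B / A) ^ 2 * w z) M := i0.const_mul _
    have j3 : Integrable (fun z => w z * u z ^ 2 - 2 * (B / A) * (w z * u z)) M := i2.sub j1
    rw [e, integral_add j3 j2, integral_sub i2 j1, integral_const_mul, integral_const_mul]
  rw [h2] at h1
  have h3 : B ^ 2 / A = 2 * (B / A) * B - (B / A) ^ 2 * A := by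
    field_simp
    ring
  linarith

theorem window {r δ : ℝ} (hr : 0 < r) (hδ : 7 * r ≤ δ) {ρ θ χ : ℝ → ℝ}
    (hρ : Continuous ρ) (hρc : HasCompactSupport ρ) (hρ0 : ∀ u, 0 ≤ ρ u)
    (hρs : ∀ u, r ≤ |u| → ρ u = 0) (hρ1 : ∫ u, ρ u = 1)
    (hχc : Continuous χ) (hχ0 : ∀ t, 0 ≤ χ t) (hθd : ∀ t, HasDerivAt θ (χ t) t)
    (hθ3 : ∀ t ∈ Icc 0 T, |θ t - t| ≤ 6 * r) {a b : ℝ} (ha : 0 ≤ a) (hab : a < b) (hb : b ≤ T)
    (τ : ℝ) : ∫⁻ t in Ioo a b, ENNReal.ofReal (χ t * ρ (θ t - τ)) ≤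
      (Ioo (a - δ) (b + δ)).indicator (fun _ => 1) τ := by
  have cθ : Continuous θ := continuous_iff_continuousAt.2 fun t => (hθd t).continuousAt
  by_cases hτ : τ ∈ Ioo (a - δ) (b + δ)
  · rw [indicator_of_mem hτ]
    have hri : Integrable ρ := hρ.integrable_of_hasCompactSupport hρc
    set P : ℝ → ℝ := fun u => ∫ y in (0:ℝ)..u, ρ y with hP
    have hPd : ∀ u, HasDerivAt P (ρ u) u := fun u =>
      (hρ.integral_hasStrictDerivAt 0 u).hasDerivAt
    have hQ : ∀ t, HasDerivAt (fun t => P (θ t - τ)) (χ t * ρ (θ t - τ)) t := by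
      intro t
      have h1 : HasDerivAt (fun t => θ t - τ) (χ t) t := (hθd t).sub_const τ
      have h2 := (hPd (θ t - τ)).comp t h1
      exact h2.congr_deriv (mul_comm _ _)
    have h1 : ∫⁻ t in Ioo a b, ENNReal.ofReal (χ t * ρ (θ t - τ)) ≤
        ∫⁻ t in Ioc a b, ENNReal.ofReal (χ t * ρ (θ t - τ)) :=
      lintegral_mono_set Ioo_subset_Ioc_self
    refine h1.trans ?_
    rw [lint_Ioc (f := fun t => χ t * ρ (θ t - τ)) (P := fun t => P (θ t - τ)) (by fun_prop)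
      (fun t => mul_nonneg (hχ0 t) (hρ0 _)) hQ hab.le]
    rw [← ENNReal.ofReal_one]
    apply ENNReal.ofReal_le_ofReal
    have hmono : Monotone θ := monotone_of_deriv_nonneg (fun t => (hθd t).differentiableAt)
      fun t => by rw [(hθd t).deriv]; exact hχ0 t
    have hle : θ a - τ ≤ θ b - τ := by linarith [hmono hab.le]
    have h2 : P (θ b - τ) - P (θ a - τ) = ∫ y in (θ a - τ)..(θ b - τ), ρ y := by
      rw [intervalIntegral.integral_eq_sub_of_hasDerivAt (fun u _ => hPd u)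
        (hρ.intervalIntegrable _ _)]
    rw [h2, intervalIntegral.integral_of_le hle, ← hρ1]
    exact setIntegral_le_integral hri (Eventually.of_forall hρ0)
  · rw [indicator_of_notMem hτ]
    have : ∫⁻ t in Ioo a b, ENNReal.ofReal (χ t * ρ (θ t - τ)) = ∫⁻ t in Ioo a b, 0 := by
      refine setLIntegral_congr_fun measurableSet_Ioo fun t ht => ?_
      have hz : ρ (θ t - τ) = 0 := by
        apply hρs
        by_contra hlt
        push Not at hlt
        apply hτ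
        have h3 := hθ3 t ⟨ha.trans ht.1.le, ht.2.le.trans hb⟩
        rw [abs_lt] at hlt
        rw [abs_le] at h3
        constructor <;> linarith [hlt.1, hlt.2, h3.1, h3.2, ht.1, ht.2]
      simp [hz]
    rw [this]
    simp

theorem act_le (h : Adm T mu v) (g : Good T mu v M) {r δ : ℝ} (hr : 0 < r) (hδ : 7 * r ≤ δ)
    {ρ θ χ : ℝ → ℝ}
    (hρ : ContDiff ℝ (↑(⊤ : ℕ∞)) ρ) (hρc : HasCompactSupport ρ) (hρ0 : ∀ u, 0 ≤ ρ u)
    (hρs : ∀ u, r ≤ |u| → ρ u = 0) (hρ1 : ∫ u, ρ u = 1) {hh : ℝ} (hhp : 0 < hh)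
    (hχc : Continuous χ) (hχ0 : ∀ t, 0 ≤ χ t) (hχ1 : ∀ t, χ t ≤ 1)
    (hθd : ∀ t, HasDerivAt θ (χ t) t) (hθ1 : ∀ t, 2 * r ≤ θ t) (hθ2 : ∀ t, θ t ≤ T - 2 * r)
    (hθ3 : ∀ t ∈ Icc 0 T, |θ t - t| ≤ 6 * r) {a b : ℝ} (ha : 0 ≤ a) (hab : a < b) (hb : b ≤ T) :
    act (fun t x => I M ρ (Sg hh) (θ t, x)) a b ≤
      ∫⁻ t in (Ioo (a - δ) (b + δ) ∩ Ioo 0 T), ∫⁻ x, ENNReal.ofReal ((v t x) ^ 2) ∂(mu t) := by
  have := g.fin
  have bρ : BD 2 ρ := BD_of_compact 2 hρ hρc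
  have bS : BD 2 (Sg hh) := BD_Sg hhp
  have bs : BD 0 (sg hh) := ⟨continuous_sg hh, _, sg_abs_le hhp⟩
  have hρ' : ContDiff ℝ (↑(⊤ : ℕ∞)) (deriv ρ) := (contDiff_infty_iff_deriv.1 hρ).2
  have bρ' : BD 0 (deriv ρ) := BD_of_compact 0 hρ' hρc.deriv
  have hρd : ∀ u, HasDerivAt ρ (deriv ρ u) u := fun u =>
    (hρ.differentiable (by simp)).differentiableAt.hasDerivAt
  obtain ⟨C, hC⟩ := bρ.bdd
  have hs1 : ∀ t, r < θ t := fun t => by linarith [hθ1 t]
  have hs2 : ∀ t, θ t < T - r := fun t => by linarith [hθ2 t]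
  have cρ := hρ.continuous
  have cS := continuous_Sg hh
  have cs' := continuous_sg hh
  have cθ : Continuous θ := continuous_iff_continuousAt.2 fun t => (hθd t).continuousAt
  have hvm : Measurable fun z : ℝ × ℝ => v z.1 z.2 := h.meas
  have hVm : Measurable fun z : ℝ × ℝ => ENNReal.ofReal ((v z.1 z.2) ^ 2) :=
    (hvm.pow_const 2).ennreal_ofReal
  -- pointwise estimate
  have key : ∀ t x, ENNReal.ofReal ((deriv (fun τ => I M ρ (Sg hh) (θ τ, x)) t) ^ 2 /
      deriv (fun x => I M ρ (Sg hh) (θ t, x)) x) ≤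
      ∫⁻ z, ENNReal.ofReal (χ t * ρ (θ t - z.1)) *
        (ENNReal.ofReal ((v z.1 z.2) ^ 2) * ENNReal.ofReal (sg hh (x - z.2))) ∂M := by
    intro t x
    rw [(hasDerivAt_I_fst bρ.zero hρd bρ' bS.zero (hasDerivAt_Sg hh) bs (hθd t) x).deriv,
      (hasDerivAt_I_snd bρ.zero hρd bρ' bS.zero (hasDerivAt_Sg hh) bs (θ t) x).deriv,
      cont_eq h g hρ hρc hρs hhp (hs1 t) (hs2 t) x]
    have hA := pos_I h g cρ hρc hρ0 hρs hρ1 hhp (hs1 t) (hs2 t) x
    have w0 : ∀ z : ℝ × ℝ, 0 ≤ ρ (θ t - z.1) * sg hh (x - z.2) := fun z =>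
      mul_nonneg (hρ0 _) (sg_pos hhp _).le
    have i0 : Integrable (fun z : ℝ × ℝ => ρ (θ t - z.1) * sg hh (x - z.2)) M :=
      integrable_kernel bρ.zero bs (θ t, x)
    have i1 : Integrable (fun z : ℝ × ℝ => ρ (θ t - z.1) * sg hh (x - z.2) * v z.1 z.2) M :=
      (Good.l1 h g).bdd_mul (c := C * (1 / hh))
        (cont_kernel cρ cs' (θ t, x)).aestronglyMeasurable
        (Eventually.of_forall fun z => bound_kernel hC (sg_abs_le hhp) (θ t, x) z)
    have i2 : Integrable (fun z : ℝ × ℝ => ρ (θ t - z.1) * sg hh (x - z.2) *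
        v z.1 z.2 ^ 2) M :=
      g.l2.bdd_mul (c := C * (1 / hh))
        (cont_kernel cρ cs' (θ t, x)).aestronglyMeasurable
        (Eventually.of_forall fun z => bound_kernel hC (sg_abs_le hhp) (θ t, x) z)
    have hcs := cs w0 i0 i1 i2 hA
    set B := ∫ z, ρ (θ t - z.1) * sg hh (x - z.2) * v z.1 z.2 ∂M with hB
    set c := ∫ z, ρ (θ t - z.1) * sg hh (x - z.2) * v z.1 z.2 ^ 2 ∂M with hc
    have hAe : I M ρ (sg hh) (θ t, x) = ∫ z, ρ (θ t - z.1) * sg hh (x - z.2) ∂M := rfl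
    rw [← hAe] at hcs
    set A := I M ρ (sg hh) (θ t, x) with hAd
    have hc0 : 0 ≤ c := integral_nonneg fun z => mul_nonneg (w0 z) (sq_nonneg _)
    have e1 : (χ t * -B) ^ 2 / A = χ t ^ 2 * (B ^ 2 / A) := by ring
    have e2 : χ t ^ 2 * (B ^ 2 / A) ≤ χ t * c := by
      have a1 : χ t ^ 2 ≤ χ t := by nlinarith [hχ0 t, hχ1 t]
      calc χ t ^ 2 * (B ^ 2 / A) ≤ χ t ^ 2 * c := mul_le_mul_of_nonneg_left hcs (sq_nonneg _)
        _ ≤ χ t * c := mul_le_mul_of_nonneg_right a1 hc0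
    rw [e1]
    refine (ENNReal.ofReal_le_ofReal e2).trans (le_of_eq ?_)
    rw [ENNReal.ofReal_mul (hχ0 t), hc, ofReal_integral_eq_lintegral_ofReal i2
      (Eventually.of_forall fun z => mul_nonneg (w0 z) (sq_nonneg _)),
      ← lintegral_const_mul' _ _ ENNReal.ofReal_ne_top]
    refine lintegral_congr fun z => ?_
    rw [ENNReal.ofReal_mul (w0 z), ENNReal.ofReal_mul (hρ0 _), ENNReal.ofReal_mul (hχ0 t)]
    ring
  have hK : Measurable (Function.uncurry fun (t : ℝ) (z : ℝ × ℝ) =>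
      ENNReal.ofReal (χ t * ρ (θ t - z.1)) * ENNReal.ofReal ((v z.1 z.2) ^ 2)) := by
    have c1 : Continuous fun p : ℝ × ℝ × ℝ => χ p.1 * ρ (θ p.1 - p.2.1) := by fun_prop
    exact c1.measurable.ennreal_ofReal.mul (hVm.comp measurable_snd)
  calc act (fun t x => I M ρ (Sg hh) (θ t, x)) a b
      ≤ ∫⁻ t in Ioo a b, ∫⁻ x, ∫⁻ z, ENNReal.ofReal (χ t * ρ (θ t - z.1)) *
        (ENNReal.ofReal ((v z.1 z.2) ^ 2) * ENNReal.ofReal (sg hh (x - z.2))) ∂M :=
        lintegral_mono fun t => lintegral_mono fun x => key t x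
    _ = ∫⁻ t in Ioo a b, ∫⁻ z, ENNReal.ofReal (χ t * ρ (θ t - z.1)) *
          ENNReal.ofReal ((v z.1 z.2) ^ 2) ∂M := by
        refine lintegral_congr fun t => ?_
        rw [lintegral_lintegral_swap]
        · refine lintegral_congr fun z => ?_
          have e : ∫⁻ x, ENNReal.ofReal (sg hh (x - z.2)) = 1 := by
            rw [lintegral_sub_right_eq_self (fun x => ENNReal.ofReal (sg hh x)) z.2]
            exact lintegral_sg hhp
          rw [lintegral_const_mul' _ _ ENNReal.ofReal_ne_top,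
            lintegral_const_mul' _ _ ENNReal.ofReal_ne_top, e, mul_one]
        · have c1 : Continuous fun p : ℝ × ℝ × ℝ => χ t * ρ (θ t - p.2.1) := by fun_prop
          have c2 : Continuous fun p : ℝ × ℝ × ℝ => sg hh (p.1 - p.2.2) := by fun_prop
          exact (c1.measurable.ennreal_ofReal.mul ((hVm.comp measurable_snd).mul
            c2.measurable.ennreal_ofReal)).aemeasurable
    _ = ∫⁻ z, (∫⁻ t in Ioo a b, ENNReal.ofReal (χ t * ρ (θ t - z.1))) *
          ENNReal.ofReal ((v z.1 z.2) ^ 2) ∂M := by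
        rw [lintegral_lintegral_swap hK.aemeasurable]
        refine lintegral_congr fun z => ?_
        rw [lintegral_mul_const' _ _ ENNReal.ofReal_ne_top]
    _ ≤ ∫⁻ z, (Ioo (a - δ) (b + δ)).indicator (fun _ => 1) z.1 *
          ENNReal.ofReal ((v z.1 z.2) ^ 2) ∂M :=
        lintegral_mono fun z => mul_le_mul' (window hr hδ cρ hρc hρ0 hρs hρ1 hχc hχ0 hθd hθ3 ha
          hab hb z.1) le_rfl
    _ = ∫⁻ t in (Ioo (a - δ) (b + δ) ∩ Ioo 0 T), ∫⁻ x, ENNReal.ofReal ((v t x) ^ 2) ∂(mu t) := by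
        rw [g.lint (fun z => (Ioo (a - δ) (b + δ)).indicator (fun _ => 1) z.1 *
          ENNReal.ofReal ((v z.1 z.2) ^ 2)) (by
            refine Measurable.mul ?_ hVm
            exact (measurable_const.indicator measurableSet_Ioo).comp measurable_fst)]
        have e : ∀ t, ∫⁻ x, (Ioo (a - δ) (b + δ)).indicator (fun _ => (1 : ℝ≥0∞)) t *
            ENNReal.ofReal ((v t x) ^ 2) ∂(mu t) = (Ioo (a - δ) (b + δ)).indicator
              (fun t => ∫⁻ x, ENNReal.ofReal ((v t x) ^ 2) ∂(mu t)) t := by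
          intro t
          by_cases ht : t ∈ Ioo (a - δ) (b + δ)
          · rw [indicator_of_mem ht, indicator_of_mem ht]; simp
          · rw [indicator_of_notMem ht, indicator_of_notMem ht]; simp
        simp only [e]
        rw [lintegral_indicator measurableSet_Ioo, Measure.restrict_restrict measurableSet_Ioo]

end Pool.Agent.R510.MOL
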