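import Pool.Agent.R510.MOL.Meas

/-! The continuity equation for the mollified distribution functions (for piece MOL). -/

set_option autoImplicit false

open MeasureTheory Set Filter Topology
open scoped ENNReal

namespace Pool.Agent.R510.MOL

open Pool.Agent.R508.BT

/-- a spatial cutoff -/
theorem exists_cut : ∃ η : ℝ → ℝ, ContDiff ℝ (↑(⊤ : ℕ∞)) η ∧ HasCompactSupport η ∧
    (∀ u, |η u| ≤ 1) ∧ (∀ u, |u| ≤ 1 → η u = 1) ∧ ∃ C, ∀ u, |deriv η u| ≤ C := by
  set φ : ContDiffBump (0 : ℝ) := ⟨1, 2, one_pos, one_lt_two⟩ with hφ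
  have hs : ContDiff ℝ (↑(⊤ : ℕ∞)) φ := φ.contDiff
  refine ⟨φ, hs, φ.hasCompactSupport, fun u => ?_, fun u hu => ?_, ?_⟩
  · rw [abs_of_nonneg φ.nonneg]; exact φ.le_one
  · apply φ.one_of_mem_closedBall
    rw [Metric.mem_closedBall, dist_zero_right]
    exact hu
  · have hc : Continuous (deriv φ) := (contDiff_infty_iff_deriv.1 hs).2.continuous
    simpa using hc.bounded_above_of_compact_support φ.hasCompactSupport.deriv

variable {T : ℝ} {mu : ℝ → Measure ℝ} {v : ℝ → ℝ → ℝ} {M : Measure (ℝ × ℝ)}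

theorem cont_eq (h : Adm T mu v) (g : Good T mu v M) {r : ℝ} {ρ : ℝ → ℝ}
    (hρ : ContDiff ℝ (↑(⊤ : ℕ∞)) ρ) (hρc : HasCompactSupport ρ)
    (hρs : ∀ u, r ≤ |u| → ρ u = 0) {hh : ℝ} (hhp : 0 < hh) {s : ℝ} (hs1 : r < s)
    (hs2 : s < T - r) (x : ℝ) :
    I M (deriv ρ) (Sg hh) (s, x) = - ∫ z, ρ (s - z.1) * sg hh (x - z.2) * v z.1 z.2 ∂M := by
  have := g.fin
  obtain ⟨η, hη, hηc, hη1, hη2, D, hD⟩ := exists_cut
  have bρ : BD 0 ρ := BD_of_compact 0 hρ hρc
  have hρ' : ContDiff ℝ (↑(⊤ : ℕ∞)) (deriv ρ) := (contDiff_infty_iff_deriv.1 hρ).2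
  have bρ' : BD 0 (deriv ρ) := BD_of_compact 0 hρ' hρc.deriv
  obtain ⟨C, hC⟩ := bρ.2
  obtain ⟨C', hC'⟩ := bρ'.2
  have hρd : ∀ u, HasDerivAt ρ (deriv ρ u) u := fun u =>
    (hρ.differentiable (by simp)).differentiableAt.hasDerivAt
  have hηd : ∀ u, HasDerivAt η (deriv η u) u := fun u =>
    (hη.differentiable (by simp)).differentiableAt.hasDerivAt
  have hηcont : Continuous η := hη.continuous
  have hη'cont : Continuous (deriv η) := (contDiff_infty_iff_deriv.1 hη).2.continuous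
  have hC0 : 0 ≤ C := (abs_nonneg _).trans (hC 0)
  have hC'0 : 0 ≤ C' := (abs_nonneg _).trans (hC' 0)
  have hD0 : 0 ≤ D := (abs_nonneg _).trans (hD 0)
  -- test functions
  set ψ : ℕ → ℝ → ℝ → ℝ := fun n τ y =>
    ρ (s - τ) * Sg hh (x - y) * η (y / ((n : ℝ) + 1)) with hψ
  have hψs : ∀ n, ContDiff ℝ (↑(⊤ : ℕ∞)) (Function.uncurry (ψ n)) := by
    intro n
    have e : Function.uncurry (ψ n) = fun z : ℝ × ℝ =>
        ρ (s - z.1) * Sg hh (x - z.2) * η (z.2 / ((n : ℝ) + 1)) := by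
      funext z; rfl
    rw [e]
    exact ((hρ.comp (contDiff_const.sub contDiff_fst)).mul
      ((contDiff_Sg hh).comp (contDiff_const.sub contDiff_snd))).mul
      (hη.comp (contDiff_snd.div_const _))
  have hsub : ∀ n, Function.support (Function.uncurry (ψ n)) ⊆
      Icc (s - r) (s + r) ×ˢ {y | η (y / ((n : ℝ) + 1)) ≠ 0} := by
    rintro n ⟨τ, y⟩ hz
    simp only [Function.mem_support, Function.uncurry, hψ] at hz
    refine ⟨?_, fun h0 => hz (by simp [h0])⟩
    by_contra hcon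
    apply hz
    have : r ≤ |s - τ| := by
      by_contra hlt
      push Not at hlt
      apply hcon
      rw [abs_lt] at hlt
      constructor <;> linarith [hlt.1, hlt.2]
    rw [hρs _ this]
    simp
  obtain ⟨R, hR⟩ := hηc.isCompact.isBounded.subset_closedBall (0 : ℝ)
  have hψc : ∀ n, HasCompactSupport (Function.uncurry (ψ n)) := by
    intro n
    refine HasCompactSupport.intro
      (isCompact_Icc.prod (isCompact_closedBall (0 : ℝ) (R * ((n : ℝ) + 1)))
        : IsCompact (Icc (s - r) (s + r) ×ˢ Metric.closedBall (0:ℝ) (R * ((n : ℝ) + 1)))) ?_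
    intro z hz
    by_contra hne
    obtain ⟨h1, h2⟩ := hsub n hne
    apply hz
    refine ⟨h1, ?_⟩
    have h3 : z.2 / ((n : ℝ) + 1) ∈ Metric.closedBall (0:ℝ) R := hR (subset_tsupport _ h2)
    rw [Metric.mem_closedBall, dist_zero_right, norm_div] at h3
    rw [Metric.mem_closedBall, dist_zero_right]
    have h4 : ‖(n : ℝ) + 1‖ = (n : ℝ) + 1 := by
      rw [Real.norm_eq_abs, abs_of_pos (by positivity)]
    rw [h4, div_le_iff₀ (by positivity)] at h3
    exact h3
  have hψt : ∀ n, tsupport (Function.uncurry (ψ n)) ⊆ Ioo 0 T ×ˢ univ := by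
    intro n
    have h1 : tsupport (Function.uncurry (ψ n)) ⊆ Icc (s - r) (s + r) ×ˢ univ := by
      refine closure_minimal ?_ (isClosed_Icc.prod isClosed_univ)
      exact (hsub n).trans (prod_mono le_rfl (subset_univ _))
    refine h1.trans (prod_mono ?_ le_rfl)
    intro τ hτ
    exact ⟨by linarith [hτ.1], by linarith [hτ.2]⟩
  have hd1 : ∀ n τ y, deriv (fun τ => ψ n τ y) τ =
      -(deriv ρ (s - τ)) * Sg hh (x - y) * η (y / ((n : ℝ) + 1)) := by
    intro n τ y
    have h1 : HasDerivAt (fun τ => ρ (s - τ)) (deriv ρ (s - τ) * (-1)) τ :=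
      (hρd (s - τ)).comp τ ((hasDerivAt_id τ).const_sub s)
    have h2 := (h1.mul_const (Sg hh (x - y))).mul_const (η (y / ((n : ℝ) + 1)))
    simp only [hψ]
    rw [h2.deriv]
    ring
  have hd2 : ∀ n τ y, deriv (ψ n τ) y =
      ρ (s - τ) * (-(sg hh (x - y)) * η (y / ((n : ℝ) + 1)) +
        Sg hh (x - y) * (deriv η (y / ((n : ℝ) + 1)) / ((n : ℝ) + 1))) := by
    intro n τ y
    have h1 : HasDerivAt (fun y => Sg hh (x - y)) (sg hh (x - y) * (-1)) y :=
      (hasDerivAt_Sg hh (x - y)).comp y ((hasDerivAt_id y).const_sub x)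
    have h2 : HasDerivAt (fun y => η (y / ((n : ℝ) + 1)))
        (deriv η (y / ((n : ℝ) + 1)) * (1 / ((n : ℝ) + 1))) y :=
      (hηd (y / ((n : ℝ) + 1))).comp y ((hasDerivAt_id y).div_const ((n : ℝ) + 1))
    have h3 : HasDerivAt (ψ n τ) (ρ (s - τ) * (sg hh (x - y) * (-1) * η (y / ((n : ℝ) + 1)) +
        Sg hh (x - y) * (deriv η (y / ((n : ℝ) + 1)) * (1 / ((n : ℝ) + 1))))) y := by
      have := (h1.mul h2).const_mul (ρ (s - τ))
      refine this.congr_of_eventuallyEq (Eventually.of_forall fun y => ?_)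
      simp only [hψ, Pi.mul_apply]
      ring
    rw [h3.deriv]
    ring
  set G : ℕ → ℝ × ℝ → ℝ := fun n z =>
    -(deriv ρ (s - z.1)) * Sg hh (x - z.2) * η (z.2 / ((n : ℝ) + 1)) +
    v z.1 z.2 * (ρ (s - z.1) * (-(sg hh (x - z.2)) * η (z.2 / ((n : ℝ) + 1)) +
        Sg hh (x - z.2) * (deriv η (z.2 / ((n : ℝ) + 1)) / ((n : ℝ) + 1)))) with hG
  have hvm : Measurable fun z : ℝ × ℝ => v z.1 z.2 := h.meas
  have cSg := continuous_Sg hh
  have csg := continuous_sg hh
  have cρ := bρ.1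
  have cρ' := bρ'.1
  have hGm : ∀ n, AEStronglyMeasurable (G n) M := by
    intro n
    have c1 : Continuous fun z : ℝ × ℝ =>
        -(deriv ρ (s - z.1)) * Sg hh (x - z.2) * η (z.2 / ((n : ℝ) + 1)) := by fun_prop
    have c2 : Continuous fun z : ℝ × ℝ =>
        (ρ (s - z.1) * (-(sg hh (x - z.2)) * η (z.2 / ((n : ℝ) + 1)) +
        Sg hh (x - z.2) * (deriv η (z.2 / ((n : ℝ) + 1)) / ((n : ℝ) + 1)))) := by fun_prop
    exact (c1.measurable.add (hvm.mul c2.measurable)).aestronglyMeasurable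
  set bnd : ℝ × ℝ → ℝ := fun z => C' + |v z.1 z.2| * (C * (1 / hh + D)) with hbnd
  have hbi : Integrable bnd M :=
    (integrable_const _).add ((Good.l1 h g).abs.mul_const _)
  have hGb : ∀ n z, ‖G n z‖ ≤ bnd z := by
    intro n z
    have hn : (1 : ℝ) ≤ (n : ℝ) + 1 := by have : (0:ℝ) ≤ n := Nat.cast_nonneg n; linarith
    have e1 : |deriv ρ (s - z.1)| ≤ C' := hC' _
    have e2 : |Sg hh (x - z.2)| ≤ 1 := Sg_abs_le _ _
    have e3 : |η (z.2 / ((n : ℝ) + 1))| ≤ 1 := hη1 _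
    have e4 : |sg hh (x - z.2)| ≤ 1 / hh := sg_abs_le hhp _
    have e5 : |ρ (s - z.1)| ≤ C := hC _
    have e6 : |deriv η (z.2 / ((n : ℝ) + 1)) / ((n : ℝ) + 1)| ≤ D := by
      rw [abs_div, abs_of_pos (by positivity : (0:ℝ) < (n : ℝ) + 1)]
      exact (div_le_self (abs_nonneg _) hn).trans (hD _)
    refine (norm_add_le _ _).trans (add_le_add ?_ ?_)
    · rw [norm_mul, norm_mul, norm_neg]
      simp only [Real.norm_eq_abs]
      calc |deriv ρ (s - z.1)| * |Sg hh (x - z.2)| * |η (z.2 / ((n : ℝ) + 1))| ≤ C' * 1 * 1 := by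
            gcongr
        _ = C' := by ring
    · rw [norm_mul, norm_mul]
      simp only [Real.norm_eq_abs]
      gcongr
      refine (abs_add_le _ _).trans (add_le_add ?_ ?_)
      · rw [abs_mul, abs_neg]
        calc |sg hh (x - z.2)| * |η (z.2 / ((n : ℝ) + 1))| ≤ 1 / hh * 1 := by gcongr
          _ = 1 / hh := mul_one _
      · rw [abs_mul]
        calc |Sg hh (x - z.2)| * |deriv η (z.2 / ((n : ℝ) + 1)) / ((n : ℝ) + 1)| ≤ 1 * D := by
              gcongr
          _ = D := one_mul _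
  have hGi : ∀ n, Integrable (G n) M := fun n =>
    Integrable.mono' hbi (hGm n) (Eventually.of_forall fun z => hGb n z)
  have hG0 : ∀ n, ∫ z, G n z ∂M = 0 := by
    intro n
    rw [(g.int _ (hGi n)).2]
    have := h.eqn (ψ n) (hψs n) (hψc n) (hψt n)
    simp only [hd1, hd2] at this
    exact this
  have hlim : Tendsto (fun n => ∫ z, G n z ∂M) atTop
      (𝓝 (∫ z, (-(deriv ρ (s - z.1)) * Sg hh (x - z.2) +
        v z.1 z.2 * (ρ (s - z.1) * (-(sg hh (x - z.2))))) ∂M)) := by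
    refine tendsto_integral_of_dominated_convergence bnd hGm hbi
      (fun n => Eventually.of_forall fun z => hGb n z) (Eventually.of_forall fun z => ?_)
    have a1 : Tendsto (fun n : ℕ => η (z.2 / ((n : ℝ) + 1))) atTop (𝓝 1) := by
      refine tendsto_const_nhds.congr' ?_
      obtain ⟨n0, hn0⟩ := exists_nat_ge |z.2|
      filter_upwards [eventually_ge_atTop n0] with n hn
      refine (hη2 _ ?_).symm
      rw [abs_div, abs_of_pos (by positivity : (0:ℝ) < (n : ℝ) + 1), div_le_one (by positivity)]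
      have : (n0 : ℝ) ≤ n := by exact_mod_cast hn
      linarith
    have a2 : Tendsto (fun n : ℕ => deriv η (z.2 / ((n : ℝ) + 1)) / ((n : ℝ) + 1)) atTop (𝓝 0) := by
      refine squeeze_zero_norm (a := fun n : ℕ => D * (1 / ((n : ℝ) + 1))) (fun n => ?_) ?_
      · rw [norm_div, Real.norm_eq_abs, Real.norm_eq_abs,
          abs_of_pos (by positivity : (0:ℝ) < (n : ℝ) + 1), div_eq_mul_one_div]
        exact mul_le_mul_of_nonneg_right (hD _) (by positivity)
      · simpa using (tendsto_one_div_add_atTop_nhds_zero_nat (𝕜 := ℝ)).const_mul D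
    have a3 := (a1.const_mul (-(deriv ρ (s - z.1)) * Sg hh (x - z.2))).add
      (((((a1.const_mul (-(sg hh (x - z.2)))).add (a2.const_mul (Sg hh (x - z.2))))).const_mul
        (ρ (s - z.1))).const_mul (v z.1 z.2))
    simp only [mul_one, mul_zero, add_zero] at a3
    exact a3
  simp only [hG0] at hlim
  have h0 := tendsto_nhds_unique hlim tendsto_const_nhds
  have i1 : Integrable (fun z : ℝ × ℝ => deriv ρ (s - z.1) * Sg hh (x - z.2)) M :=
    integrable_kernel bρ' ⟨cSg, 1, Sg_abs_le hh⟩ (s, x)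
  have i2 : Integrable (fun z : ℝ × ℝ => ρ (s - z.1) * sg hh (x - z.2) * v z.1 z.2) M := by
    refine (Good.l1 h g).bdd_mul (c := C * (1 / hh)) ?_ (Eventually.of_forall fun z => ?_)
    · exact (cont_kernel cρ csg (s, x)).aestronglyMeasurable
    · exact bound_kernel hC (sg_abs_le hhp) (s, x) z
  have e0 : ∫ z, (-(deriv ρ (s - z.1)) * Sg hh (x - z.2) +
        v z.1 z.2 * (ρ (s - z.1) * (-(sg hh (x - z.2))))) ∂M =
      - ∫ z, deriv ρ (s - z.1) * Sg hh (x - z.2) ∂M -
        ∫ z, ρ (s - z.1) * sg hh (x - z.2) * v z.1 z.2 ∂M := by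
    have i3 : Integrable (fun z : ℝ × ℝ => -(deriv ρ (s - z.1) * Sg hh (x - z.2))) M := i1.neg
    rw [← integral_neg, ← integral_sub i3 i2]
    refine integral_congr_ae (Eventually.of_forall fun z => ?_)
    simp only
    ring
  rw [e0] at h0
  unfold I
  simp only
  linarith

end Pool.Agent.R510.MOL
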