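import Pool.Agent.R510.MOL.Par

/-! Time mollifier and time change (for piece MOL of project BT). -/

set_option autoImplicit false

open MeasureTheory Set Filter Topology

namespace Pool.Agent.R510.MOL

theorem BD_of_compact (n : ℕ) : ∀ {p : ℝ → ℝ}, ContDiff ℝ (↑(⊤ : ℕ∞)) p → HasCompactSupport p →
    BD n p := by
  induction n with
  | zero =>
    intro p hp hc
    exact ⟨hp.continuous, by simpa using hp.continuous.bounded_above_of_compact_support hc⟩
  | succ n ih =>
    intro p hp hc
    refine ⟨by simpa using hp.continuous.bounded_above_of_compact_support hc, deriv p, fun x =>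
      (hp.differentiable (by simp)).differentiableAt.hasDerivAt, ih ?_ hc.deriv⟩
    exact (contDiff_infty_iff_deriv.1 hp).2

/-- a time mollifier -/
theorem exists_rho {r : ℝ} (hr : 0 < r) : ∃ ρ : ℝ → ℝ, ContDiff ℝ (↑(⊤ : ℕ∞)) ρ ∧
    HasCompactSupport ρ ∧ (∀ u, 0 ≤ ρ u) ∧ (∀ u, r ≤ |u| → ρ u = 0) ∧ (∀ u, |u| < r → 0 < ρ u) ∧
    ∫ u, ρ u = 1 := by
  set φ : ContDiffBump (0 : ℝ) := ⟨r / 2, r, by positivity, by linarith⟩ with hφ
  have hsup : Function.support (φ.normed volume) = Metric.ball (0:ℝ) r := φ.support_normed_eq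
  refine ⟨φ.normed volume, φ.contDiff_normed, φ.hasCompactSupport_normed, φ.nonneg_normed,
    fun u hu => ?_, fun u hu => ?_, φ.integral_normed⟩
  · by_contra hne
    have : u ∈ Function.support (φ.normed volume) := hne
    rw [hsup, Metric.mem_ball, dist_zero_right, Real.norm_eq_abs] at this
    linarith
  · have : u ∈ Function.support (φ.normed volume) := by
      rw [hsup, Metric.mem_ball, dist_zero_right, Real.norm_eq_abs]
      exact hu
    exact lt_of_le_of_ne (φ.nonneg_normed u) (Ne.symm this)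

/-- a time change -/
theorem exists_theta {T r : ℝ} (hr : 0 < r) (hT : 16 * r ≤ T) : ∃ θ χ : ℝ → ℝ,
    Continuous χ ∧ (∀ t, 0 ≤ χ t) ∧ (∀ t, χ t ≤ 1) ∧ (∀ t, HasDerivAt θ (χ t) t) ∧
    ContDiff ℝ 2 θ ∧ (∀ t, 2 * r ≤ θ t) ∧ (∀ t, θ t ≤ T - 2 * r) ∧
    ∀ t ∈ Icc 0 T, |θ t - t| ≤ 6 * r := by
  set φ : ContDiffBump (T / 2 : ℝ) := ⟨T / 2 - 4 * r, T / 2 - 2 * r, by linarith, by linarith⟩
    with hφ
  have hc : Continuous φ := φ.continuous
  have h0 : ∀ t, 0 ≤ φ t := fun t => φ.nonneg
  have h1 : ∀ t, φ t ≤ 1 := fun t => φ.le_one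
  have hlo : ∀ t, t ≤ 2 * r → φ t = 0 := by
    intro t ht
    apply φ.zero_of_le_dist
    rw [Real.dist_eq, abs_sub_comm]
    exact le_trans (by show T / 2 - 2 * r ≤ T / 2 - t; linarith) (le_abs_self _)
  have hhi : ∀ t, T - 2 * r ≤ t → φ t = 0 := by
    intro t ht
    apply φ.zero_of_le_dist
    rw [Real.dist_eq]
    exact le_trans (by show T / 2 - 2 * r ≤ t - T / 2; linarith) (le_abs_self _)
  have hmid : ∀ t, 4 * r ≤ t → t ≤ T - 4 * r → φ t = 1 := by
    intro t ht1 ht2
    apply φ.one_of_mem_closedBall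
    rw [Metric.mem_closedBall, Real.dist_eq, abs_le]
    show -(T / 2 - 4 * r) ≤ t - T / 2 ∧ t - T / 2 ≤ T / 2 - 4 * r
    constructor <;> linarith
  set θ : ℝ → ℝ := fun t => 2 * r + ∫ u in (0:ℝ)..t, φ u with hθ
  have hd : ∀ t, HasDerivAt θ (φ t) t := fun t =>
    (hc.integral_hasStrictDerivAt 0 t).hasDerivAt.const_add (2 * r)
  have hderiv : deriv θ = φ := funext fun t => (hd t).deriv
  have hdiff : Differentiable ℝ θ := fun t => (hd t).differentiableAt
  have hCD : ContDiff ℝ 2 θ := by
    have : ContDiff ℝ (1 + 1) θ := by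
      rw [contDiff_succ_iff_deriv]
      refine ⟨hdiff, fun h => by simp at h, ?_⟩
      rw [hderiv]
      exact φ.contDiff
    simpa using (by norm_num : (1 : WithTop ℕ∞) + 1 = 2) ▸ this
  have hmono : Monotone θ := monotone_of_deriv_nonneg hdiff fun t => by rw [hderiv]; exact h0 t
  have hanti : Antitone fun t => θ t - t := by
    refine antitone_of_deriv_nonpos (hdiff.sub differentiable_id) fun t => ?_
    have : HasDerivAt (fun t => θ t - t) (φ t - 1) t := (hd t).sub (hasDerivAt_id t)
    rw [this.deriv]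
    linarith [h1 t]
  have hθlo : ∀ t, t ≤ 2 * r → θ t = 2 * r := by
    intro t ht
    have : ∫ u in (0:ℝ)..t, φ u = ∫ u in (0:ℝ)..t, (0 : ℝ) := by
      refine intervalIntegral.integral_congr fun u hu => hlo u ?_
      rw [mem_uIcc] at hu
      rcases hu with hu | hu <;> linarith [hu.1, hu.2]
    simp only [hθ, this]
    simp
  have hint : ∀ a b, ∫ u in a..b, φ u = θ b - θ a := fun a b =>
    intervalIntegral.integral_eq_sub_of_hasDerivAt (fun u _ => hd u) (hc.intervalIntegrable a b)
  have hθhi : ∀ t, T - 2 * r ≤ t → θ t = θ (T - 2 * r) := by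
    intro t ht
    have h := hint (T - 2 * r) t
    have : ∫ u in (T - 2 * r)..t, φ u = ∫ u in (T - 2 * r)..t, (0 : ℝ) := by
      refine intervalIntegral.integral_congr fun u hu => hhi u ?_
      rw [uIcc_of_le ht] at hu
      exact hu.1
    rw [this] at h
    simp at h
    linarith
  have hge : ∀ t, 2 * r ≤ θ t := by
    intro t
    rcases le_total t (2 * r) with h | h
    · exact (hθlo t h).ge
    · rw [← hθlo (2 * r) le_rfl]
      exact hmono h
  have hle' : ∀ t, 2 * r ≤ t → θ t ≤ t := by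
    intro t ht
    have := hanti ht
    simp only [hθlo (2 * r) le_rfl, sub_self] at this
    linarith
  refine ⟨θ, φ, hc, h0, h1, hd, hCD, hge, fun t => ?_, fun t ht => ?_⟩
  · rcases le_total t (2 * r) with h | h
    · rw [hθlo t h]; linarith
    · rcases le_total t (T - 2 * r) with h' | h'
      · exact (hle' t h).trans h'
      · rw [hθhi t h']
        exact hle' _ (by linarith)
  · have a1 : θ t - t ≤ 2 * r := by
      have := hanti ht.1
      simp only [hθlo 0 (by linarith), sub_zero] at this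
      exact this
    have a2 : θ T - T ≤ θ t - t := hanti ht.2
    have a3 : θ (T - 4 * r) ≤ θ T := hmono (by linarith)
    have a4 := hint (4 * r) (T - 4 * r)
    have a5 : ∫ u in (4 * r)..(T - 4 * r), φ u = ∫ u in (4 * r)..(T - 4 * r), (1 : ℝ) := by
      refine intervalIntegral.integral_congr fun u hu => ?_
      rw [uIcc_of_le (by linarith)] at hu
      exact hmid u hu.1 hu.2
    rw [a5] at a4
    simp at a4
    have a6 := hge (4 * r)
    rw [abs_le]
    constructor <;> linarith

end Pool.Agent.R510.MOL
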