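import Pool.Agent.R508.BT.Eul
import Pool.Agent.R510.MOL.Tm

/-! The space-time measure (for piece MOL of project BT). -/

set_option autoImplicit false

open MeasureTheory Set Filter Topology ProbabilityTheory
open scoped ENNReal

namespace Pool.Agent.R510.MOL

open Pool.Agent.R508.BT

/-- the space-time measure -/
structure Good (T : ℝ) (mu : ℝ → Measure ℝ) (v : ℝ → ℝ → ℝ) (M : Measure (ℝ × ℝ)) : Prop where
  fin : IsFiniteMeasure M
  lint : ∀ f : ℝ × ℝ → ℝ≥0∞, Measurable f →
    ∫⁻ z, f z ∂M = ∫⁻ t in Ioo 0 T, ∫⁻ x, f (t, x) ∂(mu t)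
  int : ∀ f : ℝ × ℝ → ℝ, Integrable f M →
    IntegrableOn (fun t => ∫ x, f (t, x) ∂(mu t)) (Ioo 0 T) ∧
    ∫ z, f z ∂M = ∫ t in Ioo 0 T, ∫ x, f (t, x) ∂(mu t)
  l2 : Integrable (fun z : ℝ × ℝ => (v z.1 z.2) ^ 2) M

theorem exists_M (T : ℝ) (mu : ℝ → Measure ℝ) (v : ℝ → ℝ → ℝ) (h : Adm T mu v) :
    ∃ M, Good T mu v M := by
  classical
  let κ : Kernel ℝ ℝ := ⟨fun t => if t ∈ Icc 0 T then mu t else Measure.dirac 0,
    Measurable.ite measurableSet_Icc (Measure.measurable_of_measurable_coe mu h.kern)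
      measurable_const⟩
  have hκ : ∀ t ∈ Ioo 0 T, κ t = mu t := fun t ht => if_pos (Ioo_subset_Icc_self ht)
  have hmk : IsMarkovKernel κ := ⟨fun t => by
    by_cases ht : t ∈ Icc 0 T
    · have : κ t = mu t := if_pos ht
      rw [this]; exact h.prob t ht
    · have : κ t = Measure.dirac 0 := if_neg ht
      rw [this]; infer_instance⟩
  have hlint : ∀ f : ℝ × ℝ → ℝ≥0∞, Measurable f →
      ∫⁻ z, f z ∂((volume.restrict (Ioo 0 T)).compProd κ) =
        ∫⁻ t in Ioo 0 T, ∫⁻ x, f (t, x) ∂(mu t) := by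
    intro f hf
    rw [Measure.lintegral_compProd hf]
    exact setLIntegral_congr_fun measurableSet_Ioo fun t ht => by
      simp only [hκ t ht]
  refine ⟨(volume.restrict (Ioo 0 T)).compProd κ, inferInstance, hlint, fun f hf => ⟨?_, ?_⟩, ?_⟩
  · have hf' : Integrable f ((Kernel.const Unit (volume.restrict (Ioo 0 T)) ⊗ₖ
        Kernel.prodMkLeft Unit κ) ()) := hf
    have := MeasureTheory.Integrable.integral_compProd hf'
    simp only [Kernel.prodMkLeft_apply, Kernel.const_apply] at this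
    exact (integrableOn_congr_fun (fun t ht => by simp only [hκ t ht]) measurableSet_Ioo).1 this
  · rw [Measure.integral_compProd hf]
    exact setIntegral_congr_fun measurableSet_Ioo fun t ht => by
      simp only [hκ t ht]
  · have hm : Measurable fun z : ℝ × ℝ => (v z.1 z.2) ^ 2 := h.meas.pow_const 2
    refine ⟨hm.aestronglyMeasurable, ?_⟩
    rw [hasFiniteIntegral_iff_ofReal (Eventually.of_forall fun z => sq_nonneg _)]
    rw [hlint _ hm.ennreal_ofReal]
    exact h.fin

namespace Good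

variable {T : ℝ} {mu : ℝ → Measure ℝ} {v : ℝ → ℝ → ℝ} {M : Measure (ℝ × ℝ)}

theorem l1 (h : Adm T mu v) (g : Good T mu v M) :
    Integrable (fun z : ℝ × ℝ => v z.1 z.2) M := by
  have := g.fin
  have hm : Measurable fun z : ℝ × ℝ => v z.1 z.2 := h.meas
  refine Integrable.mono' (g.l2.add (integrable_const (1 : ℝ))) hm.aestronglyMeasurable
    (Eventually.of_forall fun z => ?_)
  simp only [Pi.add_apply, Real.norm_eq_abs]
  nlinarith [sq_abs (v z.1 z.2), sq_nonneg (|v z.1 z.2| - 1)]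

end Good

end Pool.Agent.R510.MOL
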