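import Mathlib

/-! Smoothness of mollifications (for piece MOL of project BT). -/

set_option autoImplicit false

open MeasureTheory Set Filter Topology

namespace Pool.Agent.R510.MOL

/-- `n` bounded derivatives -/
def BD : ℕ → (ℝ → ℝ) → Prop
  | 0, p => Continuous p ∧ ∃ C, ∀ x, |p x| ≤ C
  | n + 1, p => (∃ C, ∀ x, |p x| ≤ C) ∧ ∃ p' : ℝ → ℝ, (∀ x, HasDerivAt p (p' x) x) ∧ BD n p'

theorem BD.bdd {n : ℕ} {p : ℝ → ℝ} (h : BD n p) : ∃ C, ∀ x, |p x| ≤ C := by
  cases n with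
  | zero => exact h.2
  | succ n => exact h.1

theorem BD.cont {n : ℕ} {p : ℝ → ℝ} (h : BD n p) : Continuous p := by
  cases n with
  | zero => exact h.1
  | succ n =>
    obtain ⟨-, p', hp, -⟩ := h
    exact continuous_iff_continuousAt.2 fun x => (hp x).continuousAt

theorem BD.pred {n : ℕ} : ∀ {p : ℝ → ℝ}, BD (n + 1) p → BD n p := by
  induction n with
  | zero => exact fun h => ⟨h.cont, h.bdd⟩
  | succ n ih =>
    intro p h
    obtain ⟨hb, p', hp, h'⟩ := h
    exact ⟨hb, p', hp, ih h'⟩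

/-- the mollification -/
noncomputable def I (M : Measure (ℝ × ℝ)) (p q : ℝ → ℝ) (w : ℝ × ℝ) : ℝ :=
  ∫ z, p (w.1 - z.1) * q (w.2 - z.2) ∂M

section
variable {M : Measure (ℝ × ℝ)} [IsFiniteMeasure M]

theorem cont_kernel {p q : ℝ → ℝ} (hp : Continuous p) (hq : Continuous q) (w : ℝ × ℝ) :
    Continuous fun z : ℝ × ℝ => p (w.1 - z.1) * q (w.2 - z.2) := by fun_prop

theorem bound_kernel {p q : ℝ → ℝ} {C D : ℝ} (hp : ∀ x, |p x| ≤ C) (hq : ∀ x, |q x| ≤ D)
    (w z : ℝ × ℝ) : ‖p (w.1 - z.1) * q (w.2 - z.2)‖ ≤ C * D := by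
  rw [norm_mul]
  exact mul_le_mul (hp _) (hq _) (abs_nonneg _) ((abs_nonneg _).trans (hp 0))

theorem integrable_kernel {p q : ℝ → ℝ} (hp : BD 0 p) (hq : BD 0 q) (w : ℝ × ℝ) :
    Integrable (fun z : ℝ × ℝ => p (w.1 - z.1) * q (w.2 - z.2)) M := by
  obtain ⟨C, hC⟩ := hp.2
  obtain ⟨D, hD⟩ := hq.2
  exact Integrable.of_bound (cont_kernel hp.1 hq.1 w).aestronglyMeasurable (C * D)
    (Eventually.of_forall fun z => bound_kernel hC hD w z)

theorem cont_I {p q : ℝ → ℝ} (hp : BD 0 p) (hq : BD 0 q) : Continuous (I M p q) := by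
  obtain ⟨C, hC⟩ := hp.2
  obtain ⟨D, hD⟩ := hq.2
  have h1 := hp.1
  have h2 := hq.1
  refine continuous_of_dominated (bound := fun _ => C * D)
    (fun w => (cont_kernel hp.1 hq.1 w).aestronglyMeasurable)
    (fun w => Eventually.of_forall fun z => bound_kernel hC hD w z) (integrable_const _)
    (Eventually.of_forall fun z => ?_)
  fun_prop

theorem hasFDerivAt_I {p q p' q' : ℝ → ℝ} (hp : ∀ x, HasDerivAt p (p' x) x)
    (hq : ∀ x, HasDerivAt q (q' x) x) (bp : ∃ C, ∀ x, |p x| ≤ C) (bq : ∃ C, ∀ x, |q x| ≤ C)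
    (hp' : BD 0 p') (hq' : BD 0 q') (w : ℝ × ℝ) :
    HasFDerivAt (I M p q) (I M p' q w • ContinuousLinearMap.fst ℝ ℝ ℝ +
      I M p q' w • ContinuousLinearMap.snd ℝ ℝ ℝ) w := by
  have cp : Continuous p := continuous_iff_continuousAt.2 fun x => (hp x).continuousAt
  have cq : Continuous q := continuous_iff_continuousAt.2 fun x => (hq x).continuousAt
  have Bp : BD 0 p := ⟨cp, bp⟩
  have Bq : BD 0 q := ⟨cq, bq⟩
  obtain ⟨C, hC⟩ := bp
  obtain ⟨D, hD⟩ := bq
  obtain ⟨C', hC'⟩ := hp'.2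
  obtain ⟨D', hD'⟩ := hq'.2
  set F' : ℝ × ℝ → ℝ × ℝ → (ℝ × ℝ →L[ℝ] ℝ) := fun w z =>
    (p' (w.1 - z.1) * q (w.2 - z.2)) • ContinuousLinearMap.fst ℝ ℝ ℝ +
      (p (w.1 - z.1) * q' (w.2 - z.2)) • ContinuousLinearMap.snd ℝ ℝ ℝ with hF'
  have hcF : Continuous (F' w) := by
    have := hp'.1
    have := hq'.1
    simp only [hF']
    fun_prop
  have key := hasFDerivAt_integral_of_dominated_of_fderiv_le (μ := M)
    (F := fun (w : ℝ × ℝ) (z : ℝ × ℝ) => p (w.1 - z.1) * q (w.2 - z.2)) (F' := F') (x₀ := w)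
    (bound := fun _ => C' * D + C * D') (s := univ) univ_mem
    (Eventually.of_forall fun w => (cont_kernel cp cq w).aestronglyMeasurable)
    (integrable_kernel Bp Bq w) hcF.aestronglyMeasurable
    (Eventually.of_forall fun z w _ => by
      refine (norm_add_le _ _).trans (add_le_add ?_ ?_)
      · rw [norm_smul]
        calc ‖p' (w.1 - z.1) * q (w.2 - z.2)‖ * ‖ContinuousLinearMap.fst ℝ ℝ ℝ‖
            ≤ (C' * D) * 1 := mul_le_mul (bound_kernel hC' hD w z)
              (ContinuousLinearMap.norm_fst_le _ _ _) (norm_nonneg _)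
              ((norm_nonneg _).trans (bound_kernel hC' hD w z))
          _ = C' * D := mul_one _
      · rw [norm_smul]
        calc ‖p (w.1 - z.1) * q' (w.2 - z.2)‖ * ‖ContinuousLinearMap.snd ℝ ℝ ℝ‖
            ≤ (C * D') * 1 := mul_le_mul (bound_kernel hC hD' w z)
              (ContinuousLinearMap.norm_snd_le _ _ _) (norm_nonneg _)
              ((norm_nonneg _).trans (bound_kernel hC hD' w z))
          _ = C * D' := mul_one _)
    (integrable_const _)
    (Eventually.of_forall fun z w _ => by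
      have h1 : HasFDerivAt (fun w : ℝ × ℝ => p (w.1 - z.1))
          (p' (w.1 - z.1) • ContinuousLinearMap.fst ℝ ℝ ℝ) w :=
        (hp (w.1 - z.1)).comp_hasFDerivAt w ((hasFDerivAt_fst (𝕜 := ℝ)).sub_const z.1)
      have h2 : HasFDerivAt (fun w : ℝ × ℝ => q (w.2 - z.2))
          (q' (w.2 - z.2) • ContinuousLinearMap.snd ℝ ℝ ℝ) w :=
        (hq (w.2 - z.2)).comp_hasFDerivAt w ((hasFDerivAt_snd (𝕜 := ℝ)).sub_const z.2)
      refine (h1.mul h2).congr_fderiv ?_
      refine ContinuousLinearMap.ext fun v => ?_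
      simp [hF']
      ring)
  have e : ∫ z, F' w z ∂M = I M p' q w • ContinuousLinearMap.fst ℝ ℝ ℝ +
      I M p q' w • ContinuousLinearMap.snd ℝ ℝ ℝ := by
    simp only [hF', I]
    rw [integral_add, integral_smul_const, integral_smul_const]
    · exact (integrable_kernel hp' Bq w).smul_const _
    · exact (integrable_kernel Bp hq' w).smul_const _
  rw [e] at key
  exact key

theorem contDiff_I (n : ℕ) : ∀ {p q : ℝ → ℝ}, BD n p → BD n q → ContDiff ℝ n (I M p q) := by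
  induction n with
  | zero =>
    intro p q hp hq
    exact_mod_cast contDiff_zero.2 (cont_I hp hq)
  | succ n ih =>
    intro p q hp hq
    have hp1 := hp.pred
    have hq1 := hq.pred
    obtain ⟨bp, p', hpd, hp'⟩ := hp
    obtain ⟨bq, q', hqd, hq'⟩ := hq
    have h0 : ∀ {m : ℕ} {r : ℝ → ℝ}, BD m r → BD 0 r := fun h => ⟨h.cont, h.bdd⟩
    push_cast
    rw [contDiff_succ_iff_hasFDerivAt]
    refine ⟨_, ?_, fun w => hasFDerivAt_I hpd hqd bp bq (h0 hp') (h0 hq') w⟩
    exact ((ih hp' hq1).smul contDiff_const).add ((ih hp1 hq').smul contDiff_const)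

end

/-! ### the sigmoid kernels -/

/-- the distribution function -/
noncomputable def Sg (h x : ℝ) : ℝ := Real.sigmoid (x / h)

/-- its density -/
noncomputable def sg (h x : ℝ) : ℝ := Real.sigmoid (x / h) * (1 - Real.sigmoid (x / h)) / h

theorem hasDerivAt_Sg (h x : ℝ) : HasDerivAt (Sg h) (sg h x) x := by
  have h1 : HasDerivAt (fun x : ℝ => x / h) (1 / h) x := (hasDerivAt_id x).div_const h
  have h2 := HasDerivAt.comp (h₂ := Real.sigmoid) x (Real.hasDerivAt_sigmoid (x / h)) h1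
  exact h2.congr_deriv (by unfold sg; ring)

theorem sg_pos {h : ℝ} (hh : 0 < h) (x : ℝ) : 0 < sg h x := by
  unfold sg
  have := Real.sigmoid_pos (x / h)
  have := Real.sigmoid_lt_one (x / h)
  have : 0 < 1 - Real.sigmoid (x / h) := by linarith
  positivity

theorem sg_le {h : ℝ} (hh : 0 < h) (x : ℝ) : sg h x ≤ 1 / h := by
  unfold sg
  have h1 := Real.sigmoid_pos (x / h)
  have h2 := Real.sigmoid_lt_one (x / h)
  have : Real.sigmoid (x / h) * (1 - Real.sigmoid (x / h)) ≤ 1 := by nlinarith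
  gcongr

theorem hasDerivAt_sg (h x : ℝ) : HasDerivAt (sg h)
    (sg h x * (1 - 2 * Sg h x) / h) x := by
  have h1 := hasDerivAt_Sg h x
  have h2 : HasDerivAt (fun x => Sg h x * (1 - Sg h x) / h)
      ((sg h x * (1 - Sg h x) + Sg h x * (0 - sg h x)) / h) x :=
    (h1.mul ((hasDerivAt_const x (1:ℝ)).sub h1)).div_const h
  exact h2.congr_deriv (by ring)

theorem continuous_Sg (h : ℝ) : Continuous (Sg h) :=
  continuous_iff_continuousAt.2 fun x => (hasDerivAt_Sg h x).continuousAt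

theorem continuous_sg (h : ℝ) : Continuous (sg h) :=
  continuous_iff_continuousAt.2 fun x => (hasDerivAt_sg h x).continuousAt

theorem Sg_abs_le (h x : ℝ) : |Sg h x| ≤ 1 := by
  unfold Sg
  rw [abs_of_pos (Real.sigmoid_pos _)]
  exact Real.sigmoid_le_one _

theorem sg_abs_le {h : ℝ} (hh : 0 < h) (x : ℝ) : |sg h x| ≤ 1 / h := by
  rw [abs_of_pos (sg_pos hh x)]
  exact sg_le hh x

theorem BD_Sg {h : ℝ} (hh : 0 < h) : BD 2 (Sg h) := by
  refine ⟨⟨1, Sg_abs_le h⟩, sg h, hasDerivAt_Sg h, ⟨1 / h, sg_abs_le hh⟩, _, hasDerivAt_sg h, ?_, ?_⟩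
  · have := continuous_Sg h
    have := continuous_sg h
    fun_prop
  · refine ⟨1 / h * 3 / h, fun x => ?_⟩
    rw [abs_div, abs_mul, abs_of_pos hh]
    have h1 := sg_abs_le hh x
    have h2 := Sg_abs_le h x
    have h3 : |1 - 2 * Sg h x| ≤ 3 := by
      rw [abs_le] at h2 ⊢
      constructor <;> linarith
    gcongr

theorem contDiff_Sg (h : ℝ) : ContDiff ℝ (↑(⊤ : ℕ∞)) (Sg h) := by
  have h1 : ContDiff ℝ (↑(⊤ : ℕ∞)) Real.sigmoid := contDiff_sigmoid.of_le (by exact le_top)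
  exact h1.comp (contDiff_id.div_const h)

theorem tendsto_Sg_atTop {h : ℝ} (hh : 0 < h) : Tendsto (Sg h) atTop (𝓝 1) :=
  Real.tendsto_sigmoid_atTop.comp (tendsto_id.atTop_div_const hh)

theorem tendsto_Sg_atBot {h : ℝ} (hh : 0 < h) : Tendsto (Sg h) atBot (𝓝 0) :=
  Real.tendsto_sigmoid_atBot.comp (tendsto_id.atBot_div_const hh)

theorem lint_Ioc {f P : ℝ → ℝ} (hf : Continuous f) (h0 : ∀ x, 0 ≤ f x)
    (hP : ∀ x, HasDerivAt P (f x) x) {a b : ℝ} (hab : a ≤ b) :
    ∫⁻ x in Ioc a b, ENNReal.ofReal (f x) = ENNReal.ofReal (P b - P a) := by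
  have hi : IntervalIntegrable f volume a b := hf.intervalIntegrable a b
  rw [← intervalIntegral.integral_eq_sub_of_hasDerivAt (fun x _ => hP x) hi,
    intervalIntegral.integral_of_le hab]
  rw [ofReal_integral_eq_lintegral_ofReal ((intervalIntegrable_iff_integrableOn_Ioc_of_le hab).1 hi)
    (Eventually.of_forall h0)]

theorem lintegral_sg {h : ℝ} (hh : 0 < h) : ∫⁻ x, ENNReal.ofReal (sg h x) = 1 := by
  have hc : AECover (volume : Measure ℝ) atTop fun n : ℕ => Ioc (-(n : ℝ)) n :=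
    aecover_Ioc (tendsto_neg_atTop_atBot.comp tendsto_natCast_atTop_atTop)
      tendsto_natCast_atTop_atTop
  refine hc.lintegral_eq_of_tendsto 1
    (ENNReal.continuous_ofReal.comp (continuous_sg h)).measurable.aemeasurable ?_
  have h1 : ∀ n : ℕ, ∫⁻ x in Ioc (-(n : ℝ)) n, ENNReal.ofReal (sg h x) =
      ENNReal.ofReal (Sg h n - Sg h (-(n : ℝ))) := fun n =>
    lint_Ioc (continuous_sg h) (fun x => (sg_pos hh x).le) (hasDerivAt_Sg h)
      (by have : (0 : ℝ) ≤ n := Nat.cast_nonneg n; linarith)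
  simp only [h1]
  have h2 : Tendsto (fun n : ℕ => Sg h n - Sg h (-(n : ℝ))) atTop (𝓝 (1 - 0)) :=
    ((tendsto_Sg_atTop hh).comp tendsto_natCast_atTop_atTop).sub
      ((tendsto_Sg_atBot hh).comp (tendsto_neg_atTop_atBot.comp tendsto_natCast_atTop_atTop))
  have h3 := ENNReal.tendsto_ofReal h2
  simpa using h3

end Pool.Agent.R510.MOL
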